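import Pool.Agent.V5helper86.GF.Main
import Pool.Agent.V5helper86.GF.Fields

/-!
# No fixed elements in the geometric fundamental group of an affine curve in characteristic `p`

Let `K` be a field of characteristic `p` with a separable closure `Ω` which is finite, or a finite
extension of a field `k(t)` of rational functions, or more generally which has an element that is
not of the form `b ^ p - b`.  Let `X` be an affine scheme over `K` with a `K`-point `x`.  Then the
only element of the geometric fundamental group of `X` which is fixed by the action of the Galois
group defined by `x` is the identity.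

Proof.  Let `S → X` be a finite étale cover, `φ` a point of `S` over the geometric point and
`φ' = γ φ`.  Let `L` be the finite extension of `K` generated by the values of `φ`.  For a function
`a = s c` on `S`, `c ∈ L`, let `w` be a root of `w ^ p - w = a(φ)`.  So `(φ, w)` is a point of the
Artin and Schreier cover of `S` given by `a` and `γ (φ, w) = (φ', w')`.  An element `σ` of
`Gal(Ω/L)` maps `w` to `w + i` with `i` in the prime field, and as `γ` commutes with `σ` and with
the automorphisms of the cover it maps `w'` to `w' + i`.  So `b = w' - w` is in `L` and
`b ^ p - b = c (s(φ') - s(φ))`.  If `s(φ') ≠ s(φ)`, then all elements of `L` are of the form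
`b ^ p - b` and, taking traces, so are all elements of `K`, a contradiction.
-/

set_option autoImplicit false

universe u

open CategoryTheory AlgebraicGeometry

namespace Pool.Agent.Results.MP_a94a03_ag.AffineCharP

open Pool.Agent.V5helper86.GF

/-- The field `K` is finite, or it is a finite extension of a field `k(t)` of rational functions over
a field `k`, or it has an element which is not of the form `b ^ p - b`. -/
def IsAdmissible (K : Type u) [Field K] (p : ℕ) : Prop :=
  Finite K ∨
    (∃ (k : Type u) (_ : Field k) (_ : Algebra (RatFunc k) K), FiniteDimensional (RatFunc k) K) ∨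
    ∃ a : K, ∀ b : K, b ^ p - b ≠ a

theorem result :
    ∀ (K Ω : Type u) [Field K] [Field Ω] [Algebra K Ω] [IsSepClosure K Ω] (p : ℕ) [CharP K p],
      p.Prime → IsAdmissible K p →
      ∀ (X : Scheme.{u}) [IsAffine X] (f : X ⟶ Spec (.of K)) (x : Spec (.of K) ⟶ X),
        x ≫ f = 𝟙 _ →
        ∀ γ : Pi K Ω x, IsGeometric f γ → IsFixed x γ → γ = 1 := by
  intro K Ω _ _ _ _ p _ hp hK X _ f x hxf γ hγ hfix
  haveI : Fact p.Prime := ⟨hp⟩
  refine eq_one_of_fixed p ?_ X f x hxf γ hγ hfix
  rcases hK with hK | ⟨k, _, _, _⟩ | hK
  · exact not_surjective_of_finite K p hp.one_lt
  · exact not_surjective_of_functionField k K p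
  · exact hK

end Pool.Agent.Results.MP_a94a03_ag.AffineCharP
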